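import Pool.Agent.H72.GP.Defs

/-!
# Logarithms of close Gaussian integers (MP_3cf473_nt): targets of the board gpo_modules

Port of the rows of `Pool.Agent.H85.PS.Targets`.
-/

set_option autoImplicit false

open Polynomial Finset

namespace Pool.Agent.H72.GP

open Pool.Agent.H85.PS (II MM Vec Sup Deg Jf Typ Maj Tay)

noncomputable section

/-! ### Formal rows, for an arbitrary system -/

/-- Leibniz rule and additivity -/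
def T_LEI : Prop := ∀ (s : ℕ) (S : Sy s) (g : ℚ[X]) (A B : Vec s),
  (nab S (fun e => g * A e) = fun e => S.th * derivative g * A e + g * nab S A e) ∧
  nab S (A + B) = nab S A + nab S B

/-- supports and degrees of the iterates -/
def T_SPD : Prop := ∀ (s D m δ : ℕ) (S : Sy s) (A : Vec s), SDeg δ S → Sup D A → Deg m A →
  ∀ i, Sup D (nabI S i A) ∧ Deg (m + i * δ) (nabI S i A)

/-- the derivation corresponds to `th d/dX`, for the local expansions -/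
def T_DGG : Prop := ∀ (s D : ℕ) (S : Sy s) (z0 : ℚ) (L : Fin s → PowerSeries ℚ) (A : Vec s),
  Lo S z0 L → Sup D A → ∀ e' : Fin s → ℕ, ((taylor z0 S.th : ℚ[X]) : PowerSeries ℚ) *
    PowerSeries.derivative ℚ (GG L z0 D A e') = GG L z0 D (nab S A) e'

/-- orders of the iterates -/
def T_EVI : Prop := ∀ (s D T : ℕ) (S : Sy s) (f : Fin s → PowerSeries ℚ) (A : Vec s), Lo S 0 f →
  Sup D A → (PowerSeries.X : PowerSeries ℚ) ^ T ∣ evf f D A →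
  ∀ i, (PowerSeries.X : PowerSeries ℚ) ^ (T - i) ∣ evf f D (nabI S i A)

/-- a nonzero stable module contains a nonzero multiple of the constant polynomial `1` -/
def T_ONE : Prop := ∀ (s D : ℕ) (S : Sy s), Ind S →
  ∀ W : Submodule ℚ[X] (Vec s), (∀ A ∈ W, Sup D A) → (∀ A ∈ W, nab S A ∈ W) → W ≠ ⊥ →
  ∃ g : ℚ[X], g ≠ 0 ∧ (fun e => if e = 0 then g else 0) ∈ W

/-- if the determinant vanishes, `1` is a combination of fewer derivatives, Cramer's rule -/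
def T_CYC : Prop := ∀ (s D : ℕ) (S : Sy s), Ind S →
  ∀ A : Vec s, Sup D A → A ≠ 0 → Dt S D A = 0 →
  ∃ (l : ℕ) (J : Fin l → (Fin s → ℕ)) (c : Fin l → ℚ[X]), l < MM s D ∧
    Matrix.det (Matrix.of fun i j : Fin l => nabI S i A (J j)) ≠ 0 ∧
    ∀ e, ∑ i, c i * nabI S i A e =
      if e = 0 then Matrix.det (Matrix.of fun i j : Fin l => nabI S i A (J j)) else 0

/-- the determinant does not vanish -/
def T_RNK : Prop := ∀ (s D m T δ : ℕ) (S : Sy s) (f : Fin s → PowerSeries ℚ), Ind S → SDeg δ S →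
  Lo S 0 f → ∀ A : Vec s, Sup D A → Deg m A → A ≠ 0 →
  (PowerSeries.X : PowerSeries ℚ) ^ T ∣ evf f D A →
  (MM s D - 1) * m + MM s D * MM s D * δ + MM s D < T → Dt S D A ≠ 0

/-- degree of the determinant and order at zero -/
def T_DDV : Prop := ∀ (s D m T δ : ℕ) (S : Sy s) (f : Fin s → PowerSeries ℚ) (A : Vec s),
  SDeg δ S → Lo S 0 f → Sup D A → Deg m A →
  (PowerSeries.X : PowerSeries ℚ) ^ T ∣ evf f D A →
  (Dt S D A).natDegree ≤ MM s D * m + MM s D * MM s D * δ ∧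
  (X : ℚ[X]) ^ (T + 1 - MM s D) ∣ Dt S D A

/-- the derivatives span at the point `z0` -/
def T_SPZ : Prop := ∀ (s D : ℕ) (S : Sy s) (A : Vec s) (z0 : ℚ), Sup D A →
  S.th.eval z0 ≠ 0 → Dt S D A ≠ 0 → ∀ Λ : (Fin s → ℕ) → ℚ,
  (∀ i < MM s D + rootMultiplicity z0 (Dt S D A),
    ∑ e ∈ II s D, Λ e * (nabI S i A e).eval z0 = 0) → ∀ e ∈ II s D, Λ e = 0

/-- the zero estimate -/
def T_SPF : Prop := ∀ (s D m T δ : ℕ) (S : Sy s) (f : Fin s → PowerSeries ℚ), Ind S → SDeg δ S →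
  Lo S 0 f → ∀ (A : Vec s) (z0 : ℚ), z0 ≠ 0 → S.th.eval z0 ≠ 0 → Sup D A → Deg m A → A ≠ 0 →
  (PowerSeries.X : PowerSeries ℚ) ^ T ∣ evf f D A →
  (MM s D - 1) * m + MM s D * MM s D * δ + MM s D < T → ∀ Λ : (Fin s → ℕ) → ℚ,
  (∀ i < MM s D * m + MM s D * MM s D * δ + 2 * MM s D - T,
    ∑ e ∈ II s D, Λ e * (nabI S i A e).eval z0 = 0) → ∀ e ∈ II s D, Λ e = 0

/-- from the local expansion to the iterates of the derivation -/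
def T_GSP : Prop := ∀ (s D : ℕ) (S : Sy s) (z0 : ℚ) (L : Fin s → PowerSeries ℚ) (A : Vec s),
  Lo S z0 L → Sup D A → ∀ (Λ : (Fin s → ℕ) → ℚ) (n : ℕ),
  (∀ i < n, ∑ e ∈ II s D, Λ e * Gc L z0 D A i e = 0) →
  ∀ i < n, ∑ e ∈ II s D, Λ e * (nabI S i A e).eval z0 = 0

/-- Taylor series of the auxiliary function -/
def T_TAR : Prop := ∀ (s D : ℕ) (F : Fin s → ℂ → ℂ) (z0 : ℚ) (L : Fin s → PowerSeries ℚ)
  (A : Vec s), (∀ k, AnalyticAt ℂ (F k) (z0 : ℂ)) → (∀ k, Tay (z0 : ℂ) (F k) =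
    PowerSeries.C (F k z0) + PowerSeries.map (algebraMap ℚ ℂ) (L k)) →
  Tay (z0 : ℂ) (RR F D A) = ∑ e ∈ II s D,
    PowerSeries.map (algebraMap ℚ ℂ) ((taylor z0 (A e) : ℚ[X]) : PowerSeries ℚ) *
    ∏ k, (PowerSeries.C (F k z0) + PowerSeries.map (algebraMap ℚ ℂ) (L k)) ^ e k

/-- the values of the forms are Taylor coefficients -/
def T_GID : Prop := ∀ (s D : ℕ) (F : Fin s → ℂ → ℂ) (z0 : ℚ) (L : Fin s → PowerSeries ℚ)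
  (A : Vec s), (∀ k, AnalyticAt ℂ (F k) (z0 : ℂ)) → (∀ k, Tay (z0 : ℂ) (F k) =
    PowerSeries.C (F k z0) + PowerSeries.map (algebraMap ℚ ℂ) (L k)) →
  ∀ i : ℕ, ∑ e ∈ II s D, (Gc L z0 D A i e : ℂ) * ∏ k, F k z0 ^ e k =
    iteratedDeriv i (RR F D A) z0 / (i.factorial : ℂ)

/-- vanishing at zero -/
def T_VAN : Prop := ∀ (s D T : ℕ) (F : Fin s → ℂ → ℂ) (f : Fin s → PowerSeries ℚ) (A : Vec s),
  (∀ k, AnalyticAt ℂ (F k) 0) → (∀ k, Tay 0 (F k) = PowerSeries.map (algebraMap ℚ ℂ) (f k)) →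
  (PowerSeries.X : PowerSeries ℚ) ^ T ∣ evf f D A → ∀ j < T, iteratedDeriv j (RR F D A) 0 = 0

/-! ### Rows for the logarithms -/

/-- the local expansions solve the system -/
def T_LOG : Prop := ∀ (s : ℕ) (κ : Fin s → Bool) (x y : Fin s → ℚ) (z0 : ℚ),
  (∀ k, qn (x k) (y k) z0 ≠ 0) → Lo (SG κ x y) z0 (fun k => lamG (κ k) (x k) (y k) z0)

/-- degrees -/
def T_SGD : Prop := ∀ (s : ℕ) (κ : Fin s → Bool) (x y : Fin s → ℚ), SDeg (2 * s) (SG κ x y) ∧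
  ∀ z0 : ℚ, (∀ k, qn (x k) (y k) z0 ≠ 0) → (SG κ x y).th.eval z0 ≠ 0

/-- residues over the complex numbers: distinct nonzero `b k` -/
def T_PLC : Prop := ∀ (s : ℕ) (b : Fin s → ℂ), Function.Injective b → (∀ k, b k ≠ 0) →
  ∀ (a w : ℂ[X]) (c : Fin s → ℂ), a ≠ 0 →
  (∏ k, (1 + C (b k) * X)) * (a * derivative w - derivative a * w) =
    a ^ 2 * ∑ k, C (c k) * (C (b k) * ∏ j ∈ univ.erase k, (1 + C (b j) * X)) → ∀ k, c k = 0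

/-- independence of the functions -/
def T_IND : Prop := ∀ (s : ℕ) (κ : Fin s → Bool) (x y : Fin s → ℚ), Dis κ x y → Ind (SG κ x y)

/-- denominators of the expansions -/
def T_TYL : Prop := ∀ (q : ℤ) (κ : Bool) (x y : ℚ), (∃ z : ℤ, (q : ℚ) * x = z) →
  (∃ z : ℤ, (q : ℚ) * y = z) → Typ q 1 (lgG κ x y)

/-- denominators of the coefficients of the local expansions -/
def T_TYG : Prop := ∀ (s D m N : ℕ) (κ : Fin s → Bool) (x y : Fin s → ℤ) (A : Vec s), 1 ≤ N →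
  (∀ k, ((N : ℤ) + x k) ^ 2 + y k ^ 2 ≠ 0) → Deg m A → (∀ e j, ∃ z : ℤ, (A e).coeff j = z) →
  ∀ (i : ℕ) (e' : Fin s → ℕ), ∃ z : ℤ,
  (N : ℚ) ^ m * (∏ k, (((N : ℚ) + x k) ^ 2 + (y k : ℚ) ^ 2)) ^ i * (Nat.lcmUpto i : ℚ) ^ D *
    Gc (fun k => lamG (κ k) (x k) (y k) (1 / N)) (1 / N) D A i e' = z

/-- size of the coefficients of the local expansions -/
def T_MJG : Prop := ∀ s D : ℕ, ∃ c : ℕ, 1 ≤ c ∧ ∀ (m N B : ℕ) (κ : Fin s → Bool)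
  (x y : Fin s → ℤ) (A : Vec s) (a : ℝ), 1 ≤ B → 8 * B < N → (∀ k, |x k| ≤ B ∧ |y k| ≤ B) →
  Deg m A → 0 ≤ a → (∀ e j, |(((A e).coeff j : ℚ) : ℝ)| ≤ a) → ∀ (i : ℕ) (e' : Fin s → ℕ),
  |((Gc (fun k => lamG (κ k) (x k) (y k) (1 / N)) (1 / N) D A i e' : ℚ) : ℝ)| ≤
    (c : ℝ) ^ (m + 1) * a * (c * B) ^ i

/-- the auxiliary polynomials, Siegel's lemma -/
def T_SIE : Prop := ∀ s D q0 : ℕ, 2 ≤ q0 → ∃ c : ℕ, 1 ≤ c ∧ ∀ (n B : ℕ) (κ : Fin s → Bool)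
  (x y : Fin s → ℤ), 1 ≤ n → 1 ≤ B → (∀ k, |x k| ≤ B ∧ |y k| ≤ B) →
  ∃ A : Vec s, A ≠ 0 ∧ Sup D A ∧ Deg (q0 * n) A ∧
  (∀ e j, ∃ z : ℤ, (A e).coeff j = z) ∧
  (∀ e j, |(((A e).coeff j : ℚ) : ℝ)| ≤ ((c : ℝ) * B) ^ (c * n)) ∧
  (PowerSeries.X : PowerSeries ℚ) ^ (MM s D * q0 * n - n) ∣
    evf (fun k => lgG (κ k) (x k) (y k)) D A

/-- Taylor series of the logarithms -/
def T_TAL : Prop := ∀ (κ : Bool) (x y z0 : ℚ), (|x| + |y|) * |z0| < 1 →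
  AnalyticAt ℂ (FF κ x y) (z0 : ℂ) ∧ Tay (z0 : ℂ) (FF κ x y) =
    PowerSeries.C (FF κ x y z0) + PowerSeries.map (algebraMap ℚ ℂ) (lamG κ x y z0)

/-- the auxiliary function near zero -/
def T_RRB : Prop := ∀ (s D m B : ℕ) (κ : Fin s → Bool) (x y : Fin s → ℤ) (A : Vec s) (a : ℝ),
  1 ≤ B → (∀ k, |x k| ≤ B ∧ |y k| ≤ B) → Deg m A → 0 ≤ a →
  (∀ e j, |(((A e).coeff j : ℚ) : ℝ)| ≤ a) →
  DifferentiableOn ℂ (RR (fun k => FF (κ k) (x k) (y k)) D A) (Metric.ball 0 (1 / (4 * B))) ∧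
  ∀ z ∈ Metric.ball (0 : ℂ) (1 / (4 * B)),
    ‖RR (fun k => FF (κ k) (x k) (y k)) D A z‖ ≤ MM s D * ((m + 1) * a)

/-- the values at `1 / N` -/
def T_VFF : Prop := ∀ (s N B : ℕ) (κ : Fin s → Bool) (x y : Fin s → ℤ), 1 ≤ B → 8 * B < N →
  (∀ k, |x k| ≤ B ∧ |y k| ≤ B) → ∀ k, FF (κ k) (x k) (y k) ((1 / N : ℚ) : ℂ) = (vG κ x y N k : ℂ)

/-- the values of the forms are small -/
def T_VAL : Prop := ∀ s D : ℕ, ∃ c : ℕ, 1 ≤ c ∧ ∀ (m N B T : ℕ) (κ : Fin s → Bool)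
  (x y : Fin s → ℤ) (A : Vec s) (a : ℝ), 1 ≤ B → 8 * B < N → (∀ k, |x k| ≤ B ∧ |y k| ≤ B) →
  Deg m A → 0 ≤ a → (∀ e j, |(((A e).coeff j : ℚ) : ℝ)| ≤ a) →
  (PowerSeries.X : PowerSeries ℚ) ^ T ∣ evf (fun k => lgG (κ k) (x k) (y k)) D A → ∀ i : ℕ,
  ‖∑ e ∈ II s D, (Gc (fun k => lamG (κ k) (x k) (y k) (1 / N)) (1 / N) D A i e : ℂ) *
    ∏ k, ((vG κ x y N k : ℝ) : ℂ) ^ e k‖ ≤
    (c : ℝ) ^ (m + 1) * a * (c * B / N) ^ T * N ^ i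

/-- THEOREM (G), real and imaginary parts of the logarithms of close Gaussian integers -/
def T_GIR : Prop := ∀ s D : ℕ, ∃ (δ : ℝ) (N₁ : ℕ) (C : ℝ), 0 < δ ∧ 0 < C ∧
  ∀ N : ℕ, N₁ ≤ N → ∀ (κ : Fin s → Bool) (x y : Fin s → ℤ),
  Dis κ (fun k => (x k : ℚ)) (fun k => (y k : ℚ)) →
  (∀ k, |((x k : ℤ) : ℝ)| ≤ (N : ℝ) ^ δ ∧ |((y k : ℤ) : ℝ)| ≤ (N : ℝ) ^ δ) →
  ∀ H : ℝ, (N : ℝ) ≤ H → ∀ P : MvPolynomial (Fin s) ℤ, P ≠ 0 → P.totalDegree ≤ D →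
  (∀ m : Fin s →₀ ℕ, |((P.coeff m : ℤ) : ℝ)| ≤ H) →
  1 ≤ H ^ C * ‖MvPolynomial.aeval (fun k => ((vG κ x y N k : ℝ) : ℂ)) P‖

/-- the exponent of the number of derivatives -/
def c3 (s D : ℕ) : ℕ := MM s D * MM s D * (2 * s) + 2 * MM s D

/-- the bound for the coefficients of the forms -/
def SS (s D q0 c n N B : ℕ) : ℝ :=
  (N : ℝ) ^ (q0 * n + 2 * s * (n + c3 s D)) * ((c : ℝ) * B) ^ (c * n)

/-- the bound for the values of the forms -/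
def EE (s D q0 c n N B : ℕ) : ℝ :=
  (N : ℝ) ^ (q0 * n + (2 * s + 1) * (n + c3 s D)) * ((c : ℝ) * B) ^ (c * n) /
    (N : ℝ) ^ (MM s D * q0 * n - n)

/-- the inequality of the determinant, for every parameter `n` -/
def T_PR1 : Prop := ∀ s D q0 : ℕ, 2 ≤ q0 → ∃ c : ℕ, 1 ≤ c ∧ ∀ (n N B : ℕ) (κ : Fin s → Bool)
  (x y : Fin s → ℤ), 1 ≤ n → 1 ≤ B → 8 * B < N →
  Dis κ (fun k => (x k : ℚ)) (fun k => (y k : ℚ)) → (∀ k, |x k| ≤ B ∧ |y k| ≤ B) →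
  MM s D * MM s D * (2 * s) + MM s D < (q0 - 1) * n →
  ∀ (H : ℝ) (P : MvPolynomial (Fin s) ℤ),
  1 ≤ H → P ≠ 0 → P.totalDegree ≤ D → (∀ m : Fin s →₀ ℕ, |((P.coeff m : ℤ) : ℝ)| ≤ H) →
  1 ≤ ((MM s D).factorial : ℝ) * (SS s D q0 c n N B ^ (MM s D - 1) *
    ‖MvPolynomial.aeval (fun k => ((vG κ x y N k : ℝ) : ℂ)) P‖ +
    MM s D * H * SS s D q0 c n N B ^ (MM s D - 2) * EE s D q0 c n N B)

/-- choice of the parameters -/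
def T_PR2 : Prop := T_PR1 → T_GIR

/-- THEOREM (G), complex form: the logarithms of `1 + b k / N` and their conjugates, for Gaussian
integers `b k = x k + i y k` which are not real, pairwise distinct and not conjugate -/
def T_GIC : Prop := ∀ n D : ℕ, ∃ (δ : ℝ) (N₁ : ℕ) (C : ℝ), 0 < δ ∧ 0 < C ∧
  ∀ N : ℕ, N₁ ≤ N → ∀ x y : Fin n → ℤ, (∀ k, y k ≠ 0) →
  (∀ j k, j ≠ k → x j = x k → y j ≠ y k ∧ y j ≠ - y k) →
  (∀ k, |((x k : ℤ) : ℝ)| ≤ (N : ℝ) ^ δ ∧ |((y k : ℤ) : ℝ)| ≤ (N : ℝ) ^ δ) →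
  ∀ H : ℝ, (N : ℝ) ≤ H → ∀ P : MvPolynomial (Fin n ⊕ Fin n) ℤ, P ≠ 0 → P.totalDegree ≤ D →
  (∀ m : Fin n ⊕ Fin n →₀ ℕ, |((P.coeff m : ℤ) : ℝ)| ≤ H) →
  1 ≤ H ^ C * ‖MvPolynomial.aeval (Sum.elim
    (fun k => Complex.log (1 + ((x k : ℂ) + (y k : ℂ) * Complex.I) / N))
    (fun k => Complex.log (1 + ((x k : ℂ) - (y k : ℂ) * Complex.I) / N))) P‖

/-- from real and imaginary parts to the complex form -/
def T_CNV : Prop := T_GIR → T_GIC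

end

end Pool.Agent.H72.GP
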