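import Pool.Agent.H72.GP.Targets

/-!
# Theorem (G) for real and for not real Gaussian integers together: targets (MP_3cf473_nt)
-/

set_option autoImplicit false

open Polynomial Finset

namespace Pool.Agent.H72.GP

open Pool.Agent.H85.PS (II MM Vec Sup Deg Jf Typ Maj Tay)

noncomputable section

/-- like `Dis`, but real parts of the logarithms for real numbers `x k` are allowed -/
def Dis2 {s : ℕ} (κ : Fin s → Bool) (x y : Fin s → ℚ) : Prop :=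
  (∀ k, y k ≠ 0 ∨ (κ k = false ∧ x k ≠ 0)) ∧
  ∀ j k, j ≠ k → κ j = κ k → x j = x k → y j ≠ y k ∧ y j ≠ - y k

/-- independence -/
def T_IND2 : Prop := ∀ (s : ℕ) (κ : Fin s → Bool) (x y : Fin s → ℚ), Dis2 κ x y → Ind (SG κ x y)

/-- THEOREM (G), real form -/
def T_GIR2 : Prop := ∀ s D : ℕ, ∃ (δ : ℝ) (N₁ : ℕ) (C : ℝ), 0 < δ ∧ 0 < C ∧
  ∀ N : ℕ, N₁ ≤ N → ∀ (κ : Fin s → Bool) (x y : Fin s → ℤ),
  Dis2 κ (fun k => (x k : ℚ)) (fun k => (y k : ℚ)) →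
  (∀ k, |((x k : ℤ) : ℝ)| ≤ (N : ℝ) ^ δ ∧ |((y k : ℤ) : ℝ)| ≤ (N : ℝ) ^ δ) →
  ∀ H : ℝ, (N : ℝ) ≤ H → ∀ P : MvPolynomial (Fin s) ℤ, P ≠ 0 → P.totalDegree ≤ D →
  (∀ m : Fin s →₀ ℕ, |((P.coeff m : ℤ) : ℝ)| ≤ H) →
  1 ≤ H ^ C * ‖MvPolynomial.aeval (fun k => ((vG κ x y N k : ℝ) : ℂ)) P‖

/-- the inequality before the choice of the parameters -/
def T_PR12 : Prop := ∀ s D q0 : ℕ, 2 ≤ q0 → ∃ c : ℕ, 1 ≤ c ∧ ∀ (n N B : ℕ) (κ : Fin s → Bool)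
  (x y : Fin s → ℤ), 1 ≤ n → 1 ≤ B → 8 * B < N →
  Dis2 κ (fun k => (x k : ℚ)) (fun k => (y k : ℚ)) → (∀ k, |x k| ≤ B ∧ |y k| ≤ B) →
  MM s D * MM s D * (2 * s) + MM s D < (q0 - 1) * n →
  ∀ (H : ℝ) (P : MvPolynomial (Fin s) ℤ),
  1 ≤ H → P ≠ 0 → P.totalDegree ≤ D → (∀ m : Fin s →₀ ℕ, |((P.coeff m : ℤ) : ℝ)| ≤ H) →
  1 ≤ ((MM s D).factorial : ℝ) * (SS s D q0 c n N B ^ (MM s D - 1) *
    ‖MvPolynomial.aeval (fun k => ((vG κ x y N k : ℝ) : ℂ)) P‖ +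
    MM s D * H * SS s D q0 c n N B ^ (MM s D - 2) * EE s D q0 c n N B)

/-- choice of the parameters -/
def T_PR22 : Prop := T_PR12 → T_GIR2

/-- THEOREM (G), complex form, for real integers `b k` and for Gaussian integers `x k + i y k` which
are not real, with the conjugates of the latter -/
def T_GIM : Prop := ∀ r n D : ℕ, ∃ (δ : ℝ) (N₁ : ℕ) (C : ℝ), 0 < δ ∧ 0 < C ∧
  ∀ N : ℕ, N₁ ≤ N → ∀ (b : Fin r → ℤ) (x y : Fin n → ℤ), (∀ k, b k ≠ 0) →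
  Function.Injective b → (∀ k, |((b k : ℤ) : ℝ)| ≤ (N : ℝ) ^ δ) → (∀ k, y k ≠ 0) →
  (∀ j k, j ≠ k → x j = x k → y j ≠ y k ∧ y j ≠ - y k) →
  (∀ k, |((x k : ℤ) : ℝ)| ≤ (N : ℝ) ^ δ ∧ |((y k : ℤ) : ℝ)| ≤ (N : ℝ) ^ δ) →
  ∀ H : ℝ, (N : ℝ) ≤ H → ∀ P : MvPolynomial (Fin r ⊕ (Fin n ⊕ Fin n)) ℤ, P ≠ 0 →
  P.totalDegree ≤ D →
  (∀ m : Fin r ⊕ (Fin n ⊕ Fin n) →₀ ℕ, |((P.coeff m : ℤ) : ℝ)| ≤ H) →
  1 ≤ H ^ C * ‖MvPolynomial.aeval (Sum.elim (fun k => Complex.log (1 + (b k : ℂ) / N)) (Sum.elim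
    (fun k => Complex.log (1 + ((x k : ℂ) + (y k : ℂ) * Complex.I) / N))
    (fun k => Complex.log (1 + ((x k : ℂ) - (y k : ℂ) * Complex.I) / N)))) P‖

/-- from real and imaginary parts to the complex form -/
def T_CNV2 : Prop := T_GIR2 → T_GIM

/-- MAIN, mixed form: the numbers `c k ξ + log (1 + b k / N)`, where the Gaussian integers
`b k = x k + i y k` are not zero, pairwise distinct and not conjugate, `ξ` is real or imaginary,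
and `c k = 0` if `b k` and `ξ` are both real -/
def T_CCM : Prop := ∀ n d : ℕ, ∃ (dl : ℝ) (N1 : ℕ) (C : ℝ), 0 < dl ∧ 0 < C ∧
  ∀ N : ℕ, N1 ≤ N → ∀ x y : Fin n → ℤ, (∀ k, x k ≠ 0 ∨ y k ≠ 0) →
  (∀ j k, j ≠ k → x j = x k → y j ≠ y k ∧ y j ≠ - y k) →
  (∀ k, |((x k : ℤ) : ℝ)| ≤ (N : ℝ) ^ dl ∧ |((y k : ℤ) : ℝ)| ≤ (N : ℝ) ^ dl) →
  ∀ H : ℝ, 2 ≤ H → (N : ℝ) ≤ H → ∀ ξ : ℂ, ‖ξ‖ ≤ H →
  ((starRingEnd ℂ) ξ = ξ ∨ (starRingEnd ℂ) ξ = -ξ) → ∀ c : Fin n → ℤ,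
  (∀ k, |((c k : ℤ) : ℝ)| ≤ H) → (∀ k, y k = 0 → (starRingEnd ℂ) ξ = -ξ ∨ c k = 0) →
  ∀ P : MvPolynomial (Fin n) ℤ, P ≠ 0 → P.totalDegree ≤ d →
  (∀ e : Fin n →₀ ℕ, |((P.coeff e : ℤ) : ℝ)| ≤ H) →
  1 ≤ H ^ C * ‖MvPolynomial.aeval
    (fun k => (c k : ℂ) * ξ + Complex.log (1 + ((x k : ℂ) + (y k : ℂ) * Complex.I) / N)) P‖

end

end Pool.Agent.H72.GP
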