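import Pool.Agent.H72.GP.Targets2
import Pool.Agent.H72.GPO.IND

/-!
# Independence of the functions, with real numbers
-/

set_option autoImplicit false

open Polynomial Finset

namespace Pool.Agent.H72.GPO

open Pool.Agent.H72.GP

/-- the index of a number which is not real -/
theorem ind_core {s : ℕ} (κ : Fin s → Bool) (x y : Fin s → ℚ)
    (hdis : ∀ j k, j ≠ k → κ j = κ k → x j = x k → y j ≠ y k ∧ y j ≠ - y k)
    (a w : ℚ[X]) (c : Fin s → ℚ) (ha : a ≠ 0)
    (h : (SG κ x y).th * (a * derivative w - derivative a * w) =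
      a ^ 2 * ∑ k, C (c k) * (SG κ x y).pk k) (k0 : Fin s) (hy : y k0 ≠ 0) : c k0 = 0 := by
  classical
  obtain ⟨β, hβ⟩ : ∃ β : ℂ, β = (x k0 : ℂ) + y k0 * Complex.I := ⟨_, rfl⟩
  obtain ⟨βb, hβb⟩ : ∃ βb : ℂ, βb = (x k0 : ℂ) - y k0 * Complex.I := ⟨_, rfl⟩
  have hy0 : (y k0 : ℂ) ≠ 0 := by exact_mod_cast hy
  have hI : Complex.I ≠ 0 := Complex.I_ne_zero
  have him : β.im = y k0 := by simp [hβ]
  have hβ0 : β ≠ 0 := by
    intro e
    rw [e] at him
    have : ((y k0 : ℚ) : ℝ) ≠ 0 := by exact_mod_cast hy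
    exact this him.symm
  obtain ⟨ρ, hρ⟩ : ∃ ρ : ℂ, ρ = -1 / β := ⟨_, rfl⟩
  set K0 : Finset (Fin s) := univ.filter (fun k => x k = x k0 ∧ (y k = y k0 ∨ y k = - y k0))
    with hK0
  have hk0 : k0 ∈ K0 := by
    rw [hK0, Finset.mem_filter]
    exact ⟨Finset.mem_univ _, rfl, Or.inl rfl⟩
  set Q : ℚ[X] := qd (x k0) (y k0) with hQ
  have hQk : ∀ k ∈ K0, qd (x k) (y k) = Q := by
    intro k hk
    rw [hK0, Finset.mem_filter] at hk
    obtain ⟨-, h1, h2 | h2⟩ := hk
    · rw [h1, h2]
    · rw [h1, h2, hQ]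
      unfold qd
      rw [neg_sq]
  -- the other indices
  set R : ℚ[X] := ∏ k ∈ K0ᶜ, qd (x k) (y k) with hR
  set N0 : ℚ[X] := ∑ k ∈ K0, C (c k) * nm (κ k) (x k) (y k) with hN0
  set W : ℚ[X] := ∑ k ∈ K0ᶜ, C (c k) * (nm (κ k) (x k) (y k) *
    ∏ j ∈ K0ᶜ.erase k, qd (x j) (y j)) with hW
  obtain ⟨r, hr⟩ : ∃ r, K0.card = r + 1 :=
    ⟨K0.card - 1, by have := Finset.card_pos.2 ⟨k0, hk0⟩; omega⟩
  have hth : (SG κ x y).th = Q ^ r * (Q * R) := by
    show ∏ k, qd (x k) (y k) = Q ^ r * (Q * R)
    rw [← Finset.prod_mul_prod_compl K0, Finset.prod_congr rfl hQk, Finset.prod_const, hr,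
      pow_succ]
    ring
  have hpk1 : ∀ k ∈ K0, (SG κ x y).pk k = Q ^ r * (nm (κ k) (x k) (y k) * R) := by
    intro k hk
    show nm (κ k) (x k) (y k) * ∏ j ∈ univ.erase k, qd (x j) (y j) = _
    have e1 : (univ : Finset (Fin s)).erase k = K0.erase k ∪ K0ᶜ := by
      ext j
      simp only [Finset.mem_erase, Finset.mem_univ, and_true, Finset.mem_union,
        Finset.mem_compl]
      constructor
      · intro hj
        by_cases h1 : j ∈ K0
        · exact Or.inl ⟨hj, h1⟩
        · exact Or.inr h1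
      · rintro (⟨h1, -⟩ | h1)
        · exact h1
        · rintro rfl
          exact h1 hk
    have e2 : Disjoint (K0.erase k) K0ᶜ := by
      rw [Finset.disjoint_left]
      intro j h1 h2
      exact (Finset.mem_compl.1 h2) (Finset.mem_of_mem_erase h1)
    rw [e1, Finset.prod_union e2, Finset.prod_congr rfl
      (fun j hj => hQk j (Finset.mem_of_mem_erase hj)), Finset.prod_const,
      Finset.card_erase_of_mem hk, hr, Nat.add_sub_cancel]
    ring
  have hpk2 : ∀ k ∈ K0ᶜ, (SG κ x y).pk k = Q ^ r * (Q * (nm (κ k) (x k) (y k) *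
      ∏ j ∈ K0ᶜ.erase k, qd (x j) (y j))) := by
    intro k hk
    show nm (κ k) (x k) (y k) * ∏ j ∈ univ.erase k, qd (x j) (y j) = _
    have e1 : (univ : Finset (Fin s)).erase k = K0 ∪ K0ᶜ.erase k := by
      ext j
      simp only [Finset.mem_erase, Finset.mem_univ, and_true, Finset.mem_union,
        Finset.mem_compl]
      constructor
      · intro hj
        by_cases h1 : j ∈ K0
        · exact Or.inl h1
        · exact Or.inr ⟨hj, h1⟩
      · rintro (h1 | ⟨h1, -⟩)
        · rintro rfl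
          exact (Finset.mem_compl.1 hk) h1
        · exact h1
    have e2 : Disjoint K0 (K0ᶜ.erase k) := by
      rw [Finset.disjoint_left]
      intro j h1 h2
      exact (Finset.mem_compl.1 (Finset.mem_of_mem_erase h2)) h1
    rw [e1, Finset.prod_union e2, Finset.prod_congr rfl hQk, Finset.prod_const, hr, pow_succ]
    ring
  have hsum : ∑ k, C (c k) * (SG κ x y).pk k = Q ^ r * (N0 * R + Q * W) := by
    rw [← Finset.sum_add_sum_compl K0, hN0, hW, Finset.sum_mul, Finset.mul_sum, mul_add,
      Finset.mul_sum, Finset.mul_sum]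
    congr 1
    · refine Finset.sum_congr rfl fun k hk => ?_
      rw [hpk1 k hk]
      ring
    · refine Finset.sum_congr rfl fun k hk => ?_
      rw [hpk2 k hk]
      ring
  have hQ0 : Q ≠ 0 := qd_ne _ _
  have hid : Q * R * (a * derivative w - derivative a * w) = a ^ 2 * (N0 * R + Q * W) := by
    refine mul_left_cancel₀ (pow_ne_zero r hQ0) ?_
    rw [hth, hsum] at h
    linear_combination h
  -- over the complex numbers
  have hidC := congrArg (Polynomial.map (algebraMap ℚ ℂ)) hid
  have hQC : Q.map (algebraMap ℚ ℂ) = (X - C ρ) * (C β * (1 + C βb * X)) := by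
    have e1 : (1 + C β * X : ℂ[X]) = C β * (X - C ρ) := by
      rw [mul_sub, ← C_mul, hρ, mul_div_cancel₀ _ hβ0, C_neg, C_1]
      ring
    have e2 : Q.map (algebraMap ℚ ℂ) = (1 + C β * X) * (1 + C βb * X) := by
      have e3 : β + βb = ((2 * x k0 : ℚ) : ℂ) := by
        rw [hβ, hβb]; push_cast; ring
      have e4 : β * βb = ((x k0 ^ 2 + y k0 ^ 2 : ℚ) : ℂ) := by
        rw [hβ, hβb]; push_cast
        have hI2 : Complex.I ^ 2 = -1 := Complex.I_sq
        linear_combination ((-(y k0 : ℂ) ^ 2)) * hI2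
      have e5 : (1 + C β * X) * (1 + C βb * X) = 1 + C (β + βb) * X + C (β * βb) * X ^ 2 := by
        have e6 : C (β + βb) = C β + C βb := C_add
        have e7 : C (β * βb) = C β * C βb := C_mul
        rw [e6, e7]
        ring
      rw [e5, e3, e4, hQ]
      unfold qd
      simp only [Polynomial.map_add, Polynomial.map_one, Polynomial.map_mul, Polynomial.map_pow,
        map_C, map_X, eq_ratCast]
    rw [e2, e1]
    ring
  have hRρ : eval ρ (R.map (algebraMap ℚ ℂ)) ≠ 0 := by
    rw [hR, Polynomial.map_prod, eval_prod]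
    refine Finset.prod_ne_zero_iff.2 fun k hk => ?_
    rw [qd_eval]
    have hkK := Finset.mem_compl.1 hk
    have hne : ∀ z : ℂ, 1 + z * ρ = 0 → z = β := by
      intro z hz
      rw [hρ] at hz
      field_simp at hz
      linear_combination -hz
    intro h0
    apply hkK
    rw [hK0, Finset.mem_filter]
    refine ⟨Finset.mem_univ _, ?_⟩
    rcases mul_eq_zero.1 h0 with h1 | h1
    · have h2 := hne _ h1
      rw [hβ] at h2
      have hre := congrArg Complex.re h2
      have him2 := congrArg Complex.im h2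
      simp at hre him2
      exact ⟨hre, Or.inl him2⟩
    · have h2 := hne _ h1
      rw [hβ] at h2
      have hre := congrArg Complex.re h2
      have him2 := congrArg Complex.im h2
      simp at hre him2
      refine ⟨hre, Or.inr ?_⟩
      have : (-(y k : ℝ)) = (y k0 : ℝ) := him2
      have h3 : ((-(y k) : ℚ) : ℝ) = ((y k0 : ℚ) : ℝ) := by push_cast; exact this
      have h4 : -(y k) = y k0 := by exact_mod_cast h3
      linarith
  have hβρ : β * ρ = -1 := by
    rw [hρ]
    field_simp
  have hUρ : eval ρ (C β * (1 + C βb * X) * R.map (algebraMap ℚ ℂ)) ≠ 0 := by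
    rw [eval_mul]
    refine mul_ne_zero ?_ hRρ
    simp only [eval_mul, eval_add, eval_one, eval_C, eval_X]
    have e1 : β * (1 + βb * ρ) = 2 * Complex.I * y k0 := by
      have : β * (1 + βb * ρ) = β + βb * (β * ρ) := by ring
      rw [this, hβρ, hβ, hβb]
      ring
    rw [e1]
    exact mul_ne_zero (mul_ne_zero two_ne_zero hI) hy0
  have hres := no_residue ρ (a.map (algebraMap ℚ ℂ)) (w.map (algebraMap ℚ ℂ))
    (C β * (1 + C βb * X) * R.map (algebraMap ℚ ℂ)) ((N0 * R + Q * W).map (algebraMap ℚ ℂ))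
    ((Polynomial.map_ne_zero_iff (algebraMap ℚ ℂ).injective).2 ha) hUρ (by
      rw [derivative_map, derivative_map]
      simp only [Polynomial.map_mul, Polynomial.map_sub, Polynomial.map_pow] at hidC
      rw [← hidC, hQC]
      ring)
  have hN : eval ρ (N0.map (algebraMap ℚ ℂ)) = 0 := by
    rw [Polynomial.map_add, Polynomial.map_mul, Polynomial.map_mul, hQC] at hres
    simp only [eval_add, eval_mul, eval_sub, eval_X, eval_C, sub_self, zero_mul,
      add_zero] at hres
    exact (mul_eq_zero.1 hres).resolve_right hRρ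
  have hN2 : ∑ k ∈ K0, (c k : ℂ) * (if κ k then (y k : ℂ) else (y k0 : ℂ) * Complex.I) = 0 := by
    rw [← hN, hN0, Polynomial.map_sum, eval_finset_sum]
    refine Finset.sum_congr rfl fun k hk => ?_
    rw [Polynomial.map_mul, eval_mul, map_C, eval_C, eq_ratCast]
    congr 1
    rw [hK0, Finset.mem_filter] at hk
    unfold nm
    by_cases hκ : κ k = true
    · rw [if_pos hκ, if_pos hκ, map_C, eval_C, eq_ratCast]
    · rw [if_neg hκ, if_neg hκ]
      simp only [Polynomial.map_add, Polynomial.map_mul, map_C, map_X, eval_add, eval_mul, eval_C,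
        eval_X, eq_ratCast]
      have hysq : y k ^ 2 = y k0 ^ 2 := by
        rcases hk.2.2 with h1 | h1 <;> rw [h1]
        ring
      rw [hk.2.1, hysq]
      have e4 : β * βb = ((x k0 ^ 2 + y k0 ^ 2 : ℚ) : ℂ) := by
        rw [hβ, hβb]; push_cast
        have hI2 : Complex.I ^ 2 = -1 := Complex.I_sq
        linear_combination ((-(y k0 : ℂ) ^ 2)) * hI2
      rw [← e4]
      have e5 : β * βb * ρ = -βb := by
        have : β * βb * ρ = βb * (β * ρ) := by ring
        rw [this, hβρ]; ring
      rw [e5, hβb]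
      ring
  have hother : ∀ k ∈ K0, k ≠ k0 → κ k ≠ κ k0 := by
    intro k hk hne hκ
    rw [hK0, Finset.mem_filter] at hk
    have := hdis k k0 hne hκ hk.2.1
    rcases hk.2.2 with h1 | h1
    · exact this.1 h1
    · exact this.2 h1
  cases hκ0 : κ k0
  · have him := congrArg Complex.im hN2
    rw [Complex.im_sum, Finset.sum_eq_single k0] at him
    · simp only [hκ0, Bool.false_eq_true, if_false] at him
      have e1 : ((c k0 : ℂ) * ((y k0 : ℂ) * Complex.I)).im = (c k0 : ℝ) * (y k0 : ℝ) := by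
        simp
      rw [e1, Complex.zero_im] at him
      have h1 : (c k0 : ℝ) * (y k0 : ℝ) = 0 := him
      have h2 : c k0 * y k0 = 0 := by exact_mod_cast h1
      exact (mul_eq_zero.1 h2).resolve_right hy
    · intro k hk hne
      have h1 : κ k = true := by
        have := hother k hk hne
        rw [hκ0] at this
        cases hh : κ k
        · exact absurd hh this
        · rfl
      rw [if_pos h1]
      simp
    · intro h1
      exact absurd hk0 h1
  · have hre := congrArg Complex.re hN2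
    rw [Complex.re_sum, Finset.sum_eq_single k0] at hre
    · simp only [hκ0, if_true] at hre
      have e1 : ((c k0 : ℂ) * (y k0 : ℂ)).re = (c k0 : ℝ) * (y k0 : ℝ) := by
        simp
      rw [e1, Complex.zero_re] at hre
      have h1 : (c k0 : ℝ) * (y k0 : ℝ) = 0 := hre
      have h2 : c k0 * y k0 = 0 := by exact_mod_cast h1
      exact (mul_eq_zero.1 h2).resolve_right hy
    · intro k hk hne
      have h1 : κ k = false := by
        have := hother k hk hne
        rw [hκ0] at this
        cases hh : κ k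
        · rfl
        · exact absurd hh this
      rw [h1]
      simp
    · intro h1
      exact absurd hk0 h1


/-- the index of a real number -/
theorem ind_real {s : ℕ} (κ : Fin s → Bool) (x y : Fin s → ℚ)
    (hD : Dis2 κ x y) (a w : ℚ[X]) (c : Fin s → ℚ) (ha : a ≠ 0)
    (h : (SG κ x y).th * (a * derivative w - derivative a * w) =
      a ^ 2 * ∑ k, C (c k) * (SG κ x y).pk k) (k0 : Fin s) (hy : y k0 = 0) : c k0 = 0 := by
  classical
  obtain ⟨h1, hdis⟩ := hD
  obtain ⟨hκ0, hx0⟩ := (h1 k0).resolve_left (fun e => e hy)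
  set x0 : ℚ := x k0 with hx0'
  set ρ : ℚ := -1 / x0 with hρ
  have hxρ : x0 * ρ = -1 := by rw [hρ]; field_simp
  -- the other indices
  set R : ℚ[X] := ∏ k ∈ univ.erase k0, qd (x k) (y k) with hR
  set W : ℚ[X] := ∑ k ∈ univ.erase k0, C (c k) * (nm (κ k) (x k) (y k) *
    ∏ j ∈ (univ.erase k0).erase k, qd (x j) (y j)) with hW
  have hq : qd x0 0 = (1 + C x0 * X) ^ 2 := by
    unfold qd
    simp only [C_add, C_mul, C_pow, C_0]
    have : (C (2 : ℚ) : ℚ[X]) = 2 := rfl
    rw [this]
    ring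
  have hn : nm false x0 0 = C x0 * (1 + C x0 * X) := by
    unfold nm
    simp only [Bool.false_eq_true, if_false, C_add, C_pow, C_0]
    ring
  have hth : (SG κ x y).th = (1 + C x0 * X) ^ 2 * R := by
    show ∏ k, qd (x k) (y k) = _
    rw [← Finset.mul_prod_erase univ _ (Finset.mem_univ k0), hy, ← hx0', hq]
  have hpk1 : (SG κ x y).pk k0 = (1 + C x0 * X) * (C x0 * R) := by
    show nm (κ k0) (x k0) (y k0) * ∏ j ∈ univ.erase k0, qd (x j) (y j) = _
    rw [hκ0, hy, ← hx0', hn]
    ring
  have hpk2 : ∀ k ∈ univ.erase k0, (SG κ x y).pk k = (1 + C x0 * X) ^ 2 *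
      (nm (κ k) (x k) (y k) * ∏ j ∈ (univ.erase k0).erase k, qd (x j) (y j)) := by
    intro k hk
    show nm (κ k) (x k) (y k) * ∏ j ∈ univ.erase k, qd (x j) (y j) = _
    have hk' : k0 ∈ univ.erase k := Finset.mem_erase.2
      ⟨(Finset.ne_of_mem_erase hk).symm, Finset.mem_univ _⟩
    rw [← Finset.mul_prod_erase (univ.erase k) _ hk', hy, ← hx0', hq, Finset.erase_right_comm]
    ring
  have hsum : ∑ k, C (c k) * (SG κ x y).pk k =
      (1 + C x0 * X) * (C (c k0) * C x0 * R + (1 + C x0 * X) * W) := by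
    rw [← Finset.add_sum_erase univ _ (Finset.mem_univ k0), hpk1, hW, mul_add, Finset.mul_sum,
      Finset.mul_sum]
    congr 1
    · ring
    · refine Finset.sum_congr rfl fun k hk => ?_
      rw [hpk2 k hk]
      ring
  have hX : (1 + C x0 * X : ℚ[X]) = C x0 * (X - C ρ) := by
    rw [mul_sub, ← C_mul, hxρ, C_neg, C_1]
    ring
  have hX0 : (1 + C x0 * X : ℚ[X]) ≠ 0 := by
    rw [hX]
    exact mul_ne_zero (C_ne_zero.2 hx0) (X_sub_C_ne_zero ρ)
  have hid : (1 + C x0 * X) * R * (a * derivative w - derivative a * w) =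
      a ^ 2 * (C (c k0) * C x0 * R + (1 + C x0 * X) * W) := by
    refine mul_left_cancel₀ hX0 ?_
    rw [hth, hsum] at h
    linear_combination h
  have hRρ : eval ρ R ≠ 0 := by
    rw [hR, eval_prod]
    refine Finset.prod_ne_zero_iff.2 fun k hk => ?_
    intro h0
    have hq2 : (1 + x k * ρ) ^ 2 + (y k * ρ) ^ 2 = 0 := by
      unfold qd at h0
      simp only [eval_add, eval_one, eval_mul, eval_C, eval_X, eval_pow] at h0
      linear_combination h0
    have hρ0 : ρ ≠ 0 := by
      rw [hρ]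
      exact div_ne_zero (by norm_num) hx0
    have h2 : 1 + x k * ρ = 0 := by nlinarith [sq_nonneg (1 + x k * ρ), sq_nonneg (y k * ρ)]
    have h3 : y k * ρ = 0 := by nlinarith [sq_nonneg (1 + x k * ρ), sq_nonneg (y k * ρ)]
    have h4 : y k = 0 := (mul_eq_zero.1 h3).resolve_right hρ0
    have h5 : x k = x0 := by
      have : (x k - x0) * ρ = 0 := by linear_combination h2 - hxρ
      exact sub_eq_zero.1 ((mul_eq_zero.1 this).resolve_right hρ0)
    have hκk : κ k = false := ((h1 k).resolve_left (fun e => e h4)).1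
    have h6 := hdis k k0 (Finset.ne_of_mem_erase hk) (hκk.trans hκ0.symm) h5
    exact h6.1 (h4.trans hy.symm)
  have hUρ : eval ρ (C x0 * R) ≠ 0 := by
    rw [eval_mul, eval_C]
    exact mul_ne_zero hx0 hRρ
  have hres := no_residue ρ a w (C x0 * R) (C (c k0) * C x0 * R + (1 + C x0 * X) * W) ha hUρ (by
    rw [← hid, hX]
    ring)
  rw [hX] at hres
  simp only [eval_add, eval_mul, eval_sub, eval_X, eval_C, sub_self, mul_zero, zero_mul,
    add_zero] at hres
  exact (mul_eq_zero.1 ((mul_eq_zero.1 hres).resolve_right hRρ)).resolve_right hx0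

theorem pf_IND2 : T_IND2 := by
  intro s κ x y hD
  refine ⟨th_ne κ x y, ?_⟩
  intro a w c ha h k0
  by_cases hy : y k0 = 0
  · exact ind_real κ x y hD a w c ha h k0 hy
  · exact ind_core κ x y hD.2 a w c ha h k0 hy

end Pool.Agent.H72.GPO
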