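import Pool.Agent.H72.GP.Asm
import Pool.Agent.H72.GP.IND2
import Pool.Agent.H72.GPO.VFF
import Pool.Agent.H36.GPO.VAL
import Pool.Agent.H85.GP.PR12
import Pool.Agent.H85.GP.PR22

/-!
# Theorem (G) in complex form
-/

set_option autoImplicit false

namespace Pool.Agent.H72.GP

theorem aVFF : T_VFF := Pool.Agent.H72.GPO.pf_VFF
theorem aVAL : T_VAL := Pool.Agent.H36.GPO.pf_VAL aGID aVAN aTAL aRRB aVFF
theorem aPR2 : T_PR2 := Pool.Agent.H85.GP.pf_PR2

/-- theorem (G), complex form -/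
theorem tGIC : T_GIC := aGIC aVAL aPR2

theorem aIND2 : T_IND2 := Pool.Agent.H72.GPO.pf_IND2
theorem aPR12 : T_PR12 :=
  Pool.Agent.H85.GP.pf_PR12 aSIE aSPF aGSP aLOG aSGD aIND2 aTYG aMJG aVAL

/-- theorem (G), real form, real numbers included -/
theorem tGIR2 : T_GIR2 := Pool.Agent.H85.GP.pf_PR22 aPR12

end Pool.Agent.H72.GP
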