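import Pool.Agent.H72.GP.Targets2

/-!
From real and imaginary parts to the complex form, real numbers included (MP_3cf473_nt).
-/

set_option autoImplicit false

open Polynomial Finset
open Pool.Agent.H72.GP
open Pool.Agent.H85.PS (II MM Vec Sup Deg Jf Typ Maj Tay)

namespace Pool.Agent.H72.CN2

noncomputable section

/-- The Gaussian integer `i`. -/
def gi : GaussianInt := ⟨0, 1⟩

theorem gi_complex : GaussianInt.toComplex gi = Complex.I := by
  rw [GaussianInt.toComplex_def]
  simp [gi]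

variable {r n : ℕ}

/-- The index type. -/
abbrev Ix (r n : ℕ) : Type := Fin r ⊕ (Fin n ⊕ Fin n)

/-- The substitution `Y = U + i V`, `Y prime = U - i V`. -/
def Ls (r n : ℕ) : Ix r n → MvPolynomial (Ix r n) GaussianInt :=
  Sum.elim (fun k => MvPolynomial.X (Sum.inl k))
    (Sum.elim (fun k => MvPolynomial.X (Sum.inr (Sum.inl k)) +
        MvPolynomial.C gi * MvPolynomial.X (Sum.inr (Sum.inr k)))
      (fun k => MvPolynomial.X (Sum.inr (Sum.inl k)) -
        MvPolynomial.C gi * MvPolynomial.X (Sum.inr (Sum.inr k))))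

/-- The substitution in polynomials. -/
def Ph (r n : ℕ) : MvPolynomial (Ix r n) ℤ →+* MvPolynomial (Ix r n) GaussianInt :=
  MvPolynomial.eval₂Hom (Int.castRingHom _) (Ls r n)

/-- The substitution in points. -/
def sb (w : Ix r n → ℂ) : Ix r n → ℂ :=
  Sum.elim (fun k => w (Sum.inl k))
    (Sum.elim (fun k => w (Sum.inr (Sum.inl k)) + Complex.I * w (Sum.inr (Sum.inr k)))
      (fun k => w (Sum.inr (Sum.inl k)) - Complex.I * w (Sum.inr (Sum.inr k))))

theorem eval_Ph (w : Ix r n → ℂ) (P : MvPolynomial (Ix r n) ℤ) :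
    MvPolynomial.eval₂ GaussianInt.toComplex w (Ph r n P) = MvPolynomial.aeval (sb w) P := by
  have h : (MvPolynomial.eval₂Hom GaussianInt.toComplex w).comp (Ph r n) =
      (MvPolynomial.aeval (sb w) : MvPolynomial (Ix r n) ℤ →ₐ[ℤ] ℂ).toRingHom := by
    apply MvPolynomial.ringHom_ext
    · intro r
      simp [Ph]
    · intro i
      rcases i with i | i | i
      · simp [Ph, Ls, sb, gi_complex]
      · simp [Ph, Ls, sb, gi_complex]
      · simp [Ph, Ls, sb, gi_complex]
  have h2 := congrArg (fun f => f P) h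
  simpa using h2

theorem sb_surj (a : Ix r n → ℂ) : ∃ w, sb w = a := by
  refine ⟨Sum.elim (fun k => a (Sum.inl k))
    (Sum.elim (fun k => (a (Sum.inr (Sum.inl k)) + a (Sum.inr (Sum.inr k))) / 2)
      (fun k => (a (Sum.inr (Sum.inl k)) - a (Sum.inr (Sum.inr k))) / (2 * Complex.I))), ?_⟩
  have hI := Complex.I_ne_zero
  funext i
  rcases i with i | i | i
  · simp only [sb, Sum.elim_inl, Sum.elim_inr]
  · simp only [sb, Sum.elim_inl, Sum.elim_inr]
    field_simp
    ring
  · simp only [sb, Sum.elim_inl, Sum.elim_inr]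
    field_simp
    ring

theorem Ph_ne (P : MvPolynomial (Ix r n) ℤ) (hP : P ≠ 0) : Ph r n P ≠ 0 := by
  intro h0
  apply hP
  have h1 : MvPolynomial.map (Int.castRingHom ℂ) P = 0 := by
    apply MvPolynomial.funext
    intro a
    obtain ⟨w, hw⟩ := sb_surj a
    have h2 := eval_Ph w P
    rw [h0, MvPolynomial.eval₂_zero, hw] at h2
    rw [MvPolynomial.eval_map, map_zero]
    rw [MvPolynomial.aeval_def] at h2
    rw [h2]
    rfl
  have hinj : Function.Injective (Int.castRingHom ℂ) := Int.cast_injective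
  exact MvPolynomial.map_injective _ hinj (by rw [h1, map_zero])

/-- The real part of a polynomial over the Gaussian integers. -/
def rp (R : MvPolynomial (Ix r n) GaussianInt) : MvPolynomial (Ix r n) ℤ :=
  ∑ m ∈ R.support, MvPolynomial.monomial m (R.coeff m).re

/-- The imaginary part of a polynomial over the Gaussian integers. -/
def ip (R : MvPolynomial (Ix r n) GaussianInt) : MvPolynomial (Ix r n) ℤ :=
  ∑ m ∈ R.support, MvPolynomial.monomial m (R.coeff m).im

theorem coeff_rp (R : MvPolynomial (Ix r n) GaussianInt) (m : Ix r n →₀ ℕ) :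
    (rp R).coeff m = (R.coeff m).re := by
  classical
  unfold rp
  rw [MvPolynomial.coeff_sum]
  simp only [MvPolynomial.coeff_monomial]
  rw [Finset.sum_ite_eq']
  split_ifs with h
  · rfl
  · rw [MvPolynomial.notMem_support_iff.1 h]
    rfl

theorem coeff_ip (R : MvPolynomial (Ix r n) GaussianInt) (m : Ix r n →₀ ℕ) :
    (ip R).coeff m = (R.coeff m).im := by
  classical
  unfold ip
  rw [MvPolynomial.coeff_sum]
  simp only [MvPolynomial.coeff_monomial]
  rw [Finset.sum_ite_eq']
  split_ifs with h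
  · rfl
  · rw [MvPolynomial.notMem_support_iff.1 h]
    rfl

theorem supp_rp (R : MvPolynomial (Ix r n) GaussianInt) : (rp R).support ⊆ R.support := by
  intro m hm
  rw [MvPolynomial.mem_support_iff, coeff_rp] at hm
  rw [MvPolynomial.mem_support_iff]
  intro h
  rw [h] at hm
  exact hm rfl

theorem supp_ip (R : MvPolynomial (Ix r n) GaussianInt) : (ip R).support ⊆ R.support := by
  intro m hm
  rw [MvPolynomial.mem_support_iff, coeff_ip] at hm
  rw [MvPolynomial.mem_support_iff]
  intro h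
  rw [h] at hm
  exact hm rfl

theorem eval_parts (w : Ix r n → ℂ) (R : MvPolynomial (Ix r n) GaussianInt) :
    MvPolynomial.eval₂ GaussianInt.toComplex w R =
      MvPolynomial.aeval w (rp R) + Complex.I * MvPolynomial.aeval w (ip R) := by
  unfold rp ip
  rw [map_sum, map_sum, Finset.mul_sum, ← Finset.sum_add_distrib, MvPolynomial.eval₂_eq]
  refine Finset.sum_congr rfl fun m _ => ?_
  rw [MvPolynomial.aeval_monomial, MvPolynomial.aeval_monomial, GaussianInt.toComplex_def]
  simp only [algebraMap_int_eq, eq_intCast, Finsupp.prod]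
  ring

theorem parts_ne (R : MvPolynomial (Ix r n) GaussianInt) (hR : R ≠ 0) :
    rp R ≠ 0 ∨ ip R ≠ 0 := by
  by_contra hc
  rw [not_or, not_not, not_not] at hc
  apply hR
  ext m
  · rw [← coeff_rp, hc.1]; simp
  · rw [← coeff_ip, hc.2]; simp

theorem Ph_monomial (m : Ix r n →₀ ℕ) (c : ℤ) :
    Ph r n (MvPolynomial.monomial m c) = MvPolynomial.C (c : GaussianInt) *
      Ph r n (MvPolynomial.monomial m 1) := by
  have h : (MvPolynomial.monomial m c : MvPolynomial (Ix r n) ℤ) =
      MvPolynomial.C c * MvPolynomial.monomial m 1 := by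
    rw [MvPolynomial.C_mul_monomial, mul_one]
  rw [h, map_mul]
  congr 1
  simp [Ph]

theorem Ph_coeff (P : MvPolynomial (Ix r n) ℤ) (m' : Ix r n →₀ ℕ) :
    (Ph r n P).coeff m' = ∑ m ∈ P.support, ((P.coeff m : ℤ) : GaussianInt) *
      (Ph r n (MvPolynomial.monomial m 1)).coeff m' := by
  conv_lhs => rw [P.as_sum, map_sum, MvPolynomial.coeff_sum]
  refine Finset.sum_congr rfl fun m _ => ?_
  rw [Ph_monomial, MvPolynomial.coeff_C_mul]

theorem deg_lin (i : Ix r n) : (Ls r n i).totalDegree ≤ 1 := by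
  have hX : ∀ j : Ix r n,
      (MvPolynomial.X j : MvPolynomial (Ix r n) GaussianInt).totalDegree ≤ 1 := fun j =>
    (MvPolynomial.totalDegree_X j).le
  have hC : ∀ j : Ix r n, (MvPolynomial.C gi * MvPolynomial.X j :
      MvPolynomial (Ix r n) GaussianInt).totalDegree ≤ 1 := fun j => by
    refine (MvPolynomial.totalDegree_mul _ _).trans ?_
    rw [MvPolynomial.totalDegree_C]
    exact (zero_add _).le.trans (hX j)
  rcases i with i | i | i
  · exact hX _
  · exact (MvPolynomial.totalDegree_add _ _).trans (max_le (hX _) (hC _))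
  · exact (MvPolynomial.totalDegree_sub _ _).trans (max_le (hX _) (hC _))

theorem deg_Ph_monomial (m : Ix r n →₀ ℕ) :
    (Ph r n (MvPolynomial.monomial m 1)).totalDegree ≤ m.degree := by
  unfold Ph
  rw [MvPolynomial.coe_eval₂Hom, MvPolynomial.eval₂_monomial, map_one, one_mul, Finsupp.prod]
  refine (MvPolynomial.totalDegree_finsetProd _ _).trans ?_
  rw [Finsupp.degree]
  refine Finset.sum_le_sum fun i _ => ?_
  refine (MvPolynomial.totalDegree_pow _ _).trans ?_
  exact (Nat.mul_le_mul_left _ (deg_lin i)).trans (mul_one _).le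

theorem deg_Ph (P : MvPolynomial (Ix r n) ℤ) :
    (Ph r n P).totalDegree ≤ P.totalDegree := by
  conv_lhs => rw [P.as_sum, map_sum]
  refine MvPolynomial.totalDegree_finsetSum_le fun m hm => ?_
  rw [Ph_monomial]
  refine (MvPolynomial.totalDegree_mul _ _).trans ?_
  rw [MvPolynomial.totalDegree_C, zero_add]
  refine (deg_Ph_monomial m).trans ?_
  exact MvPolynomial.le_totalDegree hm

/-- The theorem on real and imaginary parts, indexed by a sum type. -/
theorem GIR_sum (h : T_GIR2) (r n D : ℕ) : ∃ (δ : ℝ) (N₁ : ℕ) (C : ℝ), 0 < δ ∧ 0 < C ∧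
    ∀ N : ℕ, N₁ ≤ N → ∀ (b : Fin r → ℤ) (x y : Fin n → ℤ), (∀ k, b k ≠ 0) →
    Function.Injective b → (∀ k, |((b k : ℤ) : ℝ)| ≤ (N : ℝ) ^ δ) → (∀ k, y k ≠ 0) →
    (∀ j k, j ≠ k → x j = x k → y j ≠ y k ∧ y j ≠ - y k) →
    (∀ k, |((x k : ℤ) : ℝ)| ≤ (N : ℝ) ^ δ ∧ |((y k : ℤ) : ℝ)| ≤ (N : ℝ) ^ δ) →
    ∀ H : ℝ, (N : ℝ) ≤ H → ∀ Q : MvPolynomial (Ix r n) ℤ, Q ≠ 0 → Q.totalDegree ≤ D →
    (∀ m : Ix r n →₀ ℕ, |((Q.coeff m : ℤ) : ℝ)| ≤ H) →
    1 ≤ H ^ C * ‖MvPolynomial.aeval (Sum.elim
      (fun k => (((Complex.log (1 + (b k : ℂ) / N)).re : ℝ) : ℂ))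
      (Sum.elim
      (fun k => (((Complex.log (1 + ((x k : ℂ) + (y k : ℂ) * Complex.I) / N)).re : ℝ) : ℂ))
      (fun k => (((Complex.log (1 + ((x k : ℂ) + (y k : ℂ) * Complex.I) / N)).im : ℝ) : ℂ))))
        Q‖ := by
  obtain ⟨δ, N₁, C, hδ, hC, hm⟩ := h (r + (n + n)) D
  refine ⟨δ, N₁, C, hδ, hC, ?_⟩
  intro N hN b x y hb0 hbi hbs hy hd hb H hH Q hQ hdeg hco
  obtain ⟨eq⟩ : Nonempty (Ix r n ≃ Fin (r + (n + n))) :=
    ⟨((Equiv.refl (Fin r)).sumCongr finSumFinEquiv).trans finSumFinEquiv⟩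
  have hinj : Function.Injective eq := eq.injective
  have hpos : (0 : ℝ) ≤ (N : ℝ) ^ δ := Real.rpow_nonneg (Nat.cast_nonneg _) _
  have key := hm N hN (fun i => Sum.elim (fun _ => false)
      (Sum.elim (fun _ => false) (fun _ => true)) (eq.symm i))
    (fun i => Sum.elim b (Sum.elim x x) (eq.symm i))
    (fun i => Sum.elim (fun _ => 0) (Sum.elim y y) (eq.symm i))
    ?_ ?_ H hH (MvPolynomial.rename eq Q) ?_ ?_ ?_
  · rw [MvPolynomial.aeval_rename] at key
    refine key.trans (le_of_eq ?_)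
    congr 3
    congr 1
    funext i
    rcases i with i | i | i
    · simp [vG]
    · simp [vG]
    · simp [vG]
  · constructor
    · intro k
      obtain ⟨a, rfl⟩ := eq.surjective k
      rcases a with a | a | a
      · right
        simpa using hb0 a
      · left
        simpa using hy a
      · left
        simpa using hy a
    · intro j k hjk hκ hx
      obtain ⟨a, rfl⟩ := eq.surjective j
      obtain ⟨c, rfl⟩ := eq.surjective k
      have hab : a ≠ c := fun e => hjk (by rw [e])
      rcases a with a | a | a <;> rcases c with c | c | c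
      · have h1 : a ≠ c := fun e => hab (by rw [e])
        simp only [Equiv.symm_apply_apply, Sum.elim_inl] at hx
        exact absurd (hbi (by exact_mod_cast hx)) h1
      · simp only [Equiv.symm_apply_apply, Sum.elim_inl, Sum.elim_inr]
        have h1 := hy c
        refine ⟨?_, ?_⟩
        · intro e
          exact h1 (by exact_mod_cast e.symm)
        · intro e
          have e2 : (0 : ℤ) = - y c := by exact_mod_cast e
          exact h1 (by omega)
      · simp at hκ
      · simp only [Equiv.symm_apply_apply, Sum.elim_inl, Sum.elim_inr]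
        have h1 := hy a
        refine ⟨?_, ?_⟩
        · intro e
          exact h1 (by exact_mod_cast e)
        · intro e
          have e2 : y a = - (0 : ℤ) := by exact_mod_cast e
          exact h1 (by omega)
      · have h1 : a ≠ c := fun e => hab (by rw [e])
        simp only [Equiv.symm_apply_apply, Sum.elim_inl, Sum.elim_inr] at hx ⊢
        have h2 := hd a c h1 (by exact_mod_cast hx)
        exact ⟨by exact_mod_cast h2.1, by exact_mod_cast h2.2⟩
      · simp at hκ
      · simp at hκ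
      · simp at hκ
      · have h1 : a ≠ c := fun e => hab (by rw [e])
        simp only [Equiv.symm_apply_apply, Sum.elim_inr] at hx ⊢
        have h2 := hd a c h1 (by exact_mod_cast hx)
        exact ⟨by exact_mod_cast h2.1, by exact_mod_cast h2.2⟩
  · intro k
    obtain ⟨a, rfl⟩ := eq.surjective k
    rcases a with a | a | a
    · simpa using ⟨hbs a, hpos⟩
    · simpa using hb a
    · simpa using hb a
  · intro h0
    exact hQ (MvPolynomial.rename_injective _ hinj (by rw [h0, map_zero]))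
  · exact (MvPolynomial.totalDegree_rename_le _ _).trans hdeg
  · intro m
    have e : m = Finsupp.mapDomain eq
        (Finsupp.mapDomain eq.symm m) := by
      rw [← Finsupp.mapDomain_comp]
      simp
    rw [e, MvPolynomial.coeff_rename_mapDomain _ hinj]
    exact hco _

/-- The bound for the coefficients of the substitution. -/
def cc (r n D : ℕ) : ℕ := ∑ m ∈ Finset.Iic (Finsupp.equivFunOnFinite.symm fun _ : Ix r n => D),
  ∑ m' ∈ (Ph r n (MvPolynomial.monomial m 1)).support,
    (((Ph r n (MvPolynomial.monomial m 1)).coeff m').re.natAbs +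
    ((Ph r n (MvPolynomial.monomial m 1)).coeff m').im.natAbs)

theorem one_term (m m' : Ix r n →₀ ℕ) :
    (((Ph r n (MvPolynomial.monomial m 1)).coeff m').re.natAbs +
    ((Ph r n (MvPolynomial.monomial m 1)).coeff m').im.natAbs) ≤
    ∑ m' ∈ (Ph r n (MvPolynomial.monomial m 1)).support,
    (((Ph r n (MvPolynomial.monomial m 1)).coeff m').re.natAbs +
    ((Ph r n (MvPolynomial.monomial m 1)).coeff m').im.natAbs) := by
  by_cases hm : m' ∈ (Ph r n (MvPolynomial.monomial m 1)).support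
  · exact Finset.single_le_sum (f := fun m' =>
      (((Ph r n (MvPolynomial.monomial m 1)).coeff m').re.natAbs +
      ((Ph r n (MvPolynomial.monomial m 1)).coeff m').im.natAbs)) (fun _ _ => Nat.zero_le _) hm
  · rw [MvPolynomial.notMem_support_iff.1 hm]
    exact Nat.zero_le _

theorem supp_Iic (P : MvPolynomial (Ix r n) ℤ) (D : ℕ) (hD : P.totalDegree ≤ D) :
    P.support ⊆ Finset.Iic (Finsupp.equivFunOnFinite.symm fun _ : Ix r n => D) := by
  intro m hm
  rw [Finset.mem_Iic]
  intro i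
  have h1 : m.degree ≤ D := le_trans (MvPolynomial.le_totalDegree hm) hD
  exact (Finsupp.le_degree i m).trans h1

theorem coeff_bound (P : MvPolynomial (Ix r n) ℤ) (D : ℕ) (hD : P.totalDegree ≤ D) (H : ℝ)
    (hco : ∀ m : Ix r n →₀ ℕ, |((P.coeff m : ℤ) : ℝ)| ≤ H)
    (m' : Ix r n →₀ ℕ) :
    |((((Ph r n P).coeff m').re : ℤ) : ℝ)| ≤ cc r n D * H ∧
    |((((Ph r n P).coeff m').im : ℤ) : ℝ)| ≤ cc r n D * H := by
  have hH : 0 ≤ H := (abs_nonneg _).trans (hco 0)
  have hre : ((Ph r n P).coeff m').re = ∑ m ∈ P.support, P.coeff m *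
      ((Ph r n (MvPolynomial.monomial m 1)).coeff m').re := by
    rw [Ph_coeff]
    have : ∀ (s : Finset (Ix r n →₀ ℕ)) (f : (Ix r n →₀ ℕ) → GaussianInt),
        (∑ m ∈ s, f m).re = ∑ m ∈ s, (f m).re := by
      intro s f
      classical
      induction s using Finset.induction_on with
      | empty => rfl
      | insert a s ha ih => rw [Finset.sum_insert ha, Finset.sum_insert ha, Zsqrtd.re_add, ih]
    rw [this]
    refine Finset.sum_congr rfl fun m _ => ?_
    simp
  have him : ((Ph r n P).coeff m').im = ∑ m ∈ P.support, P.coeff m *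
      ((Ph r n (MvPolynomial.monomial m 1)).coeff m').im := by
    rw [Ph_coeff]
    have : ∀ (s : Finset (Ix r n →₀ ℕ)) (f : (Ix r n →₀ ℕ) → GaussianInt),
        (∑ m ∈ s, f m).im = ∑ m ∈ s, (f m).im := by
      intro s f
      classical
      induction s using Finset.induction_on with
      | empty => rfl
      | insert a s ha ih => rw [Finset.sum_insert ha, Finset.sum_insert ha, Zsqrtd.im_add, ih]
    rw [this]
    refine Finset.sum_congr rfl fun m _ => ?_
    simp
  have hsum : ∀ g : (Ix r n →₀ ℕ) → ℤ, (∀ m, (g m).natAbs ≤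
      ∑ m' ∈ (Ph r n (MvPolynomial.monomial m 1)).support,
      (((Ph r n (MvPolynomial.monomial m 1)).coeff m').re.natAbs +
      ((Ph r n (MvPolynomial.monomial m 1)).coeff m').im.natAbs)) →
      |((∑ m ∈ P.support, P.coeff m * g m : ℤ) : ℝ)| ≤ cc r n D * H := by
    intro g hg
    rw [Int.cast_sum]
    refine (Finset.abs_sum_le_sum_abs _ _).trans ?_
    have h1 : ∑ m ∈ P.support, |((P.coeff m * g m : ℤ) : ℝ)| ≤
        ∑ m ∈ P.support, ((∑ m' ∈ (Ph r n (MvPolynomial.monomial m 1)).support,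
          (((Ph r n (MvPolynomial.monomial m 1)).coeff m').re.natAbs +
          ((Ph r n (MvPolynomial.monomial m 1)).coeff m').im.natAbs) : ℕ) : ℝ) * H := by
      refine Finset.sum_le_sum fun m _ => ?_
      rw [Int.cast_mul, abs_mul, mul_comm]
      refine mul_le_mul ?_ (hco m) (abs_nonneg _) (Nat.cast_nonneg _)
      have h2 : |((g m : ℤ) : ℝ)| = (((g m).natAbs : ℕ) : ℝ) := by
        rw [Nat.cast_natAbs, Int.cast_abs]
      rw [h2]
      exact_mod_cast hg m
    refine h1.trans ?_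
    rw [← Finset.sum_mul]
    refine mul_le_mul_of_nonneg_right ?_ hH
    rw [← Nat.cast_sum]
    exact_mod_cast Finset.sum_le_sum_of_subset (supp_Iic P D hD)
  constructor
  · rw [hre]
    exact hsum (fun m => ((Ph r n (MvPolynomial.monomial m 1)).coeff m').re) fun m =>
      le_trans (Nat.le_add_right _ _) (one_term m m')
  · rw [him]
    exact hsum (fun m => ((Ph r n (MvPolynomial.monomial m 1)).coeff m').im) fun m =>
      le_trans (Nat.le_add_left _ _) (one_term m m')

theorem totalDegree_le_of_supp {R S : Type*} [CommSemiring R] [CommSemiring S]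
    (Q : MvPolynomial (Ix r n) R) (R' : MvPolynomial (Ix r n) S)
    (h : Q.support ⊆ R'.support) : Q.totalDegree ≤ R'.totalDegree := by
  unfold MvPolynomial.totalDegree
  exact Finset.sup_mono h

theorem log_pair (N : ℕ) (x y : ℤ) (hN : 1 ≤ N) (hx : |(x : ℝ)| < N) :
    Complex.log (1 + ((x : ℂ) - (y : ℂ) * Complex.I) / N) =
      (starRingEnd ℂ) (Complex.log (1 + ((x : ℂ) + (y : ℂ) * Complex.I) / N)) := by
  have hN0 : (0 : ℝ) < N := by exact_mod_cast hN
  have hre : (1 + ((x : ℂ) + (y : ℂ) * Complex.I) / N).re = 1 + (x : ℝ) / N := by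
    have : (1 + ((x : ℂ) + (y : ℂ) * Complex.I) / N) =
        ((1 + (x : ℝ) / N : ℝ) : ℂ) + (((y : ℝ) / N : ℝ) : ℂ) * Complex.I := by
      push_cast; ring
    rw [this]
    simp
  have hpos : 0 < 1 + (x : ℝ) / N := by
    have h1 := neg_abs_le (x : ℝ)
    have h2 : -1 < (x : ℝ) / N := by
      rw [lt_div_iff₀ hN0]
      linarith
    linarith
  have hslit : (1 + ((x : ℂ) + (y : ℂ) * Complex.I) / N) ∈ Complex.slitPlane := by
    left
    rw [hre]
    exact hpos
  rw [← Complex.log_conj _ (Complex.mem_slitPlane_iff_arg.1 hslit).1]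
  congr 1
  simp only [map_add, map_one, map_div₀, map_mul, map_intCast, map_natCast, Complex.conj_I]
  ring

theorem log_real (N : ℕ) (b : ℤ) (hN : 1 ≤ N) (hb : |(b : ℝ)| < N) :
    ((((Complex.log (1 + (b : ℂ) / N)).re : ℝ)) : ℂ) = Complex.log (1 + (b : ℂ) / N) := by
  have h := log_pair N b 0 hN hb
  simp only [Int.cast_zero, zero_mul, sub_zero, add_zero] at h
  exact Complex.conj_eq_iff_re.1 h.symm

theorem pf_CNV2 : T_CNV2 := by
  intro hG r n D
  obtain ⟨δ, N₁, C, hδ, hC, hm⟩ := GIR_sum hG r n D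
  refine ⟨min δ (1 / 2), max N₁ (cc r n D + 2), 2 * C, lt_min hδ (by norm_num), by linarith, ?_⟩
  intro N hN b x y hb0 hbi hbs hy hd hb H hH P hP hdeg hco
  have hN1 : N₁ ≤ N := (le_max_left _ _).trans hN
  have hN2 : cc r n D + 2 ≤ N := (le_max_right _ _).trans hN
  have hN2' : ((cc r n D : ℕ) : ℝ) + 2 ≤ N := by exact_mod_cast hN2
  have hNR : (1 : ℝ) ≤ N := by
    have : (0 : ℝ) ≤ ((cc r n D : ℕ) : ℝ) := Nat.cast_nonneg _
    linarith
  have hNR2 : (1 : ℝ) < N := by
    have : (0 : ℝ) ≤ ((cc r n D : ℕ) : ℝ) := Nat.cast_nonneg _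
    linarith
  have hHp : (1 : ℝ) ≤ H := hNR.trans hH
  have hlt : (N : ℝ) ^ (min δ (1 / 2)) < N := by
    calc (N : ℝ) ^ (min δ (1 / 2)) ≤ (N : ℝ) ^ (1 / 2 : ℝ) :=
          Real.rpow_le_rpow_of_exponent_le hNR (min_le_right _ _)
      _ < (N : ℝ) ^ (1 : ℝ) := Real.rpow_lt_rpow_of_exponent_lt hNR2 (by norm_num)
      _ = N := Real.rpow_one _
  have hx : ∀ k, |(x k : ℝ)| < N := fun k => (hb k).1.trans_lt hlt
  have hbx : ∀ k, |(b k : ℝ)| < N := fun k => (hbs k).trans_lt hlt
  have h1δ : (N : ℝ) ^ (min δ (1 / 2)) ≤ (N : ℝ) ^ δ :=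
    Real.rpow_le_rpow_of_exponent_le hNR (min_le_left _ _)
  have hb' : ∀ k, |((x k : ℤ) : ℝ)| ≤ (N : ℝ) ^ δ ∧ |((y k : ℤ) : ℝ)| ≤ (N : ℝ) ^ δ := by
    intro k
    exact ⟨(hb k).1.trans h1δ, (hb k).2.trans h1δ⟩
  have hbs' : ∀ k, |((b k : ℤ) : ℝ)| ≤ (N : ℝ) ^ δ := fun k => (hbs k).trans h1δ
  set q : Fin r → ℝ := fun k => (Complex.log (1 + (b k : ℂ) / N)).re with hq
  set u : Fin n → ℝ := fun k =>
    (Complex.log (1 + ((x k : ℂ) + (y k : ℂ) * Complex.I) / N)).re with hu
  set v : Fin n → ℝ := fun k =>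
    (Complex.log (1 + ((x k : ℂ) + (y k : ℂ) * Complex.I) / N)).im with hv
  set w : Ix r n → ℂ := Sum.elim (fun k => (q k : ℂ))
    (Sum.elim (fun k => (u k : ℂ)) (fun k => (v k : ℂ))) with hw
  set w' : Ix r n → ℝ := Sum.elim q (Sum.elim u v) with hw'
  have hww : w = fun i => ((w' i : ℝ) : ℂ) := by
    funext i
    rcases i with i | i | i <;> simp [hw, hw']
  have hval : (Sum.elim (fun k => Complex.log (1 + (b k : ℂ) / N)) (Sum.elim
      (fun k => Complex.log (1 + ((x k : ℂ) + (y k : ℂ) * Complex.I) / N))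
      (fun k => Complex.log (1 + ((x k : ℂ) - (y k : ℂ) * Complex.I) / N))) : Ix r n → ℂ) =
      sb w := by
    funext i
    rcases i with i | i | i
    · simp only [sb, Sum.elim_inl, hw, hq]
      exact (log_real N (b i) (by exact_mod_cast hNR) (hbx i)).symm
    · simp only [sb, Sum.elim_inl, hw, Sum.elim_inr, hu, hv]
      rw [mul_comm Complex.I]
      exact (Complex.re_add_im _).symm
    · simp only [sb, Sum.elim_inl, hw, Sum.elim_inr, hu, hv]
      rw [log_pair N (x i) (y i) (by exact_mod_cast hNR) (hx i)]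
      apply Complex.ext
      · simp
      · simp
  have hreal : ∀ Q : MvPolynomial (Ix r n) ℤ, MvPolynomial.aeval w Q =
      ((MvPolynomial.aeval w' Q : ℝ) : ℂ) := by
    intro Q
    rw [hww]
    exact MvPolynomial.aeval_algebraMap_apply (B := ℂ) w' Q
  rw [hval, ← eval_Ph, eval_parts, hreal, hreal]
  have hH2 : (N : ℝ) ≤ H ^ 2 := by nlinarith
  have hcH : ((cc r n D : ℕ) : ℝ) * H ≤ H ^ 2 := by nlinarith
  have hpow : (H ^ 2) ^ C = H ^ (2 * C) := by
    rw [← Real.rpow_natCast H 2, ← Real.rpow_mul (by linarith)]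
    norm_num
  have hHC : 0 ≤ H ^ (2 * C) := Real.rpow_nonneg (by linarith) _
  rcases parts_ne _ (Ph_ne P hP) with h0 | h0
  · have key := hm N hN1 b x y hb0 hbi hbs' hy hd hb' (H ^ 2) hH2 (rp (Ph r n P)) h0
      ((totalDegree_le_of_supp _ _ (supp_rp _)).trans ((deg_Ph P).trans hdeg)) (fun m => by
        rw [coeff_rp]
        exact (coeff_bound P D hdeg H hco m).1.trans hcH)
    rw [hpow] at key
    refine key.trans (mul_le_mul_of_nonneg_left ?_ hHC)
    have e := hreal (rp (Ph r n P))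
    rw [hw] at e
    rw [e]
    have h1 : ((MvPolynomial.aeval w' (rp (Ph r n P)) : ℝ) : ℂ) +
        Complex.I * ((MvPolynomial.aeval w' (ip (Ph r n P)) : ℝ) : ℂ) =
        ⟨MvPolynomial.aeval w' (rp (Ph r n P)), MvPolynomial.aeval w' (ip (Ph r n P))⟩ := by
      apply Complex.ext <;> simp
    rw [h1, Complex.norm_real]
    exact Complex.abs_re_le_norm
      ⟨MvPolynomial.aeval w' (rp (Ph r n P)), MvPolynomial.aeval w' (ip (Ph r n P))⟩
  · have key := hm N hN1 b x y hb0 hbi hbs' hy hd hb' (H ^ 2) hH2 (ip (Ph r n P)) h0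
      ((totalDegree_le_of_supp _ _ (supp_ip _)).trans ((deg_Ph P).trans hdeg)) (fun m => by
        rw [coeff_ip]
        exact (coeff_bound P D hdeg H hco m).2.trans hcH)
    rw [hpow] at key
    refine key.trans (mul_le_mul_of_nonneg_left ?_ hHC)
    have e := hreal (ip (Ph r n P))
    rw [hw] at e
    rw [e]
    have h1 : ((MvPolynomial.aeval w' (rp (Ph r n P)) : ℝ) : ℂ) +
        Complex.I * ((MvPolynomial.aeval w' (ip (Ph r n P)) : ℝ) : ℂ) =
        ⟨MvPolynomial.aeval w' (rp (Ph r n P)), MvPolynomial.aeval w' (ip (Ph r n P))⟩ := by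
      apply Complex.ext <;> simp
    rw [h1, Complex.norm_real]
    exact Complex.abs_im_le_norm
      ⟨MvPolynomial.aeval w' (rp (Ph r n P)), MvPolynomial.aeval w' (ip (Ph r n P))⟩

end

end Pool.Agent.H72.CN2
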