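import Pool.Agent.H72.GP.All
import Pool.Agent.H72.GP.CNV2

/-!
# Theorem (G) in complex form, real and not real Gaussian integers together
-/

set_option autoImplicit false

namespace Pool.Agent.H72.GP

/-- theorem (G), complex form, mixed -/
theorem tGIM : T_GIM := Pool.Agent.H72.CN2.pf_CNV2 tGIR2

end Pool.Agent.H72.GP
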