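import Pool.Agent.H10.GPO.MJG
import Pool.Agent.H10.GPO.SPZ
import Pool.Agent.H19.GPO.DGG
import Pool.Agent.H19.GPO.EVI
import Pool.Agent.H19.GPO.SPD
import Pool.Agent.H2.GPO.TYG
import Pool.Agent.H3.GPO.PLC
import Pool.Agent.H32.GPO.GID
import Pool.Agent.H32.GPO.RRB
import Pool.Agent.H32.GPO.TYL
import Pool.Agent.H35.GPO.LEI
import Pool.Agent.H38.GPO.SGD
import Pool.Agent.H41.GPO.SIE
import Pool.Agent.H46.GPO.DDV
import Pool.Agent.H54.GPO.GSP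
import Pool.Agent.H63.GPO.RNK
import Pool.Agent.H67.GPO.ONE
import Pool.Agent.H67.GPO.SPF
import Pool.Agent.H67.GPO.VAN
import Pool.Agent.H72.GPO.IND
import Pool.Agent.H72.GPO.LOG
import Pool.Agent.H96.GPO.CNV
import Pool.Agent.H96.GPO.TAL
import Pool.Agent.H98.GPO.TAR
import Pool.Agent.H85.GP.CYC
import Pool.Agent.H85.GP.PR1

/-!
# Theorem (G) in complex form: assembly
-/

set_option autoImplicit false

namespace Pool.Agent.H72.GP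

theorem aTAR : T_TAR := Pool.Agent.H98.GPO.pf_TAR
theorem aGID : T_GID := Pool.Agent.H32.GPO.pf_GID aTAR
theorem aVAN : T_VAN := Pool.Agent.H67.GPO.pf_VAN aTAR
theorem aTAL : T_TAL := Pool.Agent.H96.GPO.pf_TAL
theorem aRRB : T_RRB := Pool.Agent.H32.GPO.pf_RRB
theorem aLEI : T_LEI := Pool.Agent.H35.GPO.pf_LEI
theorem aONE : T_ONE := Pool.Agent.H67.GPO.pf_ONE aLEI
theorem aCYC : T_CYC := Pool.Agent.H85.GP.pf_CYC aLEI aONE
theorem aSPD : T_SPD := Pool.Agent.H19.GPO.pf_SPD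
theorem aDGG : T_DGG := Pool.Agent.H19.GPO.pf_DGG
theorem aEVI : T_EVI := Pool.Agent.H19.GPO.pf_EVI aSPD aDGG
theorem aDDV : T_DDV := Pool.Agent.H46.GPO.pf_DDV aSPD aEVI
theorem aRNK : T_RNK := Pool.Agent.H63.GPO.pf_RNK aSPD aEVI aCYC
theorem aSPZ : T_SPZ := Pool.Agent.H10.GPO.pf_SPZ aLEI
theorem aSPF : T_SPF := Pool.Agent.H67.GPO.pf_SPF aRNK aDDV aSPZ
theorem aGSP : T_GSP := Pool.Agent.H54.GPO.pf_GSP aDGG
theorem aLOG : T_LOG := Pool.Agent.H72.GPO.pf_LOG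
theorem aSGD : T_SGD := Pool.Agent.H38.GPO.pf_SGD
theorem aPLC : T_PLC := Pool.Agent.H3.GPO.pf_PLC
theorem aIND : T_IND := Pool.Agent.H72.GPO.pf_IND aPLC
theorem aTYL : T_TYL := Pool.Agent.H32.GPO.pf_TYL
theorem aTYG : T_TYG := Pool.Agent.H2.GPO.pf_TYG aTYL
theorem aSIE : T_SIE := Pool.Agent.H41.GPO.pf_SIE aTYL
theorem aMJG : T_MJG := Pool.Agent.H10.GPO.pf_MJG

theorem aPR1 (hVAL : T_VAL) : T_PR1 :=
  Pool.Agent.H85.GP.pf_PR1 aSIE aSPF aGSP aLOG aSGD aIND aTYG aMJG hVAL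

theorem aGIC (hVAL : T_VAL) (hPR2 : T_PR2) : T_GIC :=
  Pool.Agent.H96.GPO.pf_CNV (hPR2 (aPR1 hVAL))

end Pool.Agent.H72.GP
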