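import Pool.Agent.H85.PS.Targets

/-!
# Logarithms of close Gaussian integers (MP_3cf473_nt): definitions

The functions are `f k = Re log (1 + (x k + i y k) z)` (if `κ k = false`) and
`f k = Im log (1 + (x k + i y k) z)` (if `κ k = true`), as power series in `z` with rational
coefficients.  The formal part works for an arbitrary differential system `th * f k' = pk k`.
Notation of `Pool.Agent.H85.PS`: exponents `II s D`, `MM s D`, vectors `Vec s`, `Sup`, `Deg`, `Jf`,
`Typ`, `Maj`, `Tay`.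
-/

set_option autoImplicit false

open Polynomial Finset

namespace Pool.Agent.H72.GP

open Pool.Agent.H85.PS (II MM Vec Sup Deg Jf Typ Maj Tay)

noncomputable section

/-- a differential system -/
structure Sy (s : ℕ) where
  /-- the common denominator -/
  th : ℚ[X]
  /-- the numerators -/
  pk : Fin s → ℚ[X]

variable {s : ℕ}

/-- all polynomials of the system have degree at most `δ` -/
def SDeg (δ : ℕ) (S : Sy s) : Prop := S.th.natDegree ≤ δ ∧ ∀ k, (S.pk k).natDegree ≤ δ

/-- no combination of the `pk k / th` is the derivative of a rational function `w / a` -/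
def Ind (S : Sy s) : Prop := S.th ≠ 0 ∧ ∀ (a w : ℚ[X]) (c : Fin s → ℚ), a ≠ 0 →
  S.th * (a * derivative w - derivative a * w) = a ^ 2 * ∑ k, C (c k) * S.pk k → ∀ k, c k = 0

/-- the derivation: `th` times `d/dz + ∑ pk k / th ∂/∂Y k`, in coordinates -/
def nab (S : Sy s) (A : Vec s) : Vec s := fun e =>
  S.th * derivative (A e) + ∑ k, S.pk k * ((e k + 1 : ℕ) : ℚ[X]) * A (e + Pi.single k 1)

/-- iterates of the derivation -/
def nabI (S : Sy s) (i : ℕ) (A : Vec s) : Vec s := (nab S)^[i] A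

/-- `L k (X) = f k (z0 + X) - f k (z0)` for a solution of the system -/
def Lo (S : Sy s) (z0 : ℚ) (L : Fin s → PowerSeries ℚ) : Prop := ∀ k,
  PowerSeries.constantCoeff (L k) = 0 ∧
  ((taylor z0 S.th : ℚ[X]) : PowerSeries ℚ) * PowerSeries.derivative ℚ (L k) =
    ((taylor z0 (S.pk k) : ℚ[X]) : PowerSeries ℚ)

/-- the determinant -/
def Dt (S : Sy s) (D : ℕ) (A : Vec s) : ℚ[X] :=
  Matrix.det (Matrix.of fun i j : Fin (MM s D) => nabI S i A (Jf s D j))

/-- the coordinate `e'` of the auxiliary polynomial, expanded at the point `z0` -/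
def GG (L : Fin s → PowerSeries ℚ) (z0 : ℚ) (D : ℕ) (A : Vec s) (e' : Fin s → ℕ) :
    PowerSeries ℚ :=
  ∑ e ∈ II s D, ((taylor z0 (A e) : ℚ[X]) : PowerSeries ℚ) *
    (∏ k, ((e k).choose (e' k) : PowerSeries ℚ)) * ∏ k, L k ^ (e k - e' k)

/-- its coefficients -/
def Gc (L : Fin s → PowerSeries ℚ) (z0 : ℚ) (D : ℕ) (A : Vec s) (i : ℕ) (e' : Fin s → ℕ) : ℚ :=
  PowerSeries.coeff i (GG L z0 D A e')

/-- the auxiliary function as a formal power series -/
def evf (f : Fin s → PowerSeries ℚ) (D : ℕ) (A : Vec s) : PowerSeries ℚ :=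
  ∑ e ∈ II s D, ((A e : ℚ[X]) : PowerSeries ℚ) * ∏ k, f k ^ e k

/-- the auxiliary function as a function of a complex variable -/
def RR (F : Fin s → ℂ → ℂ) (D : ℕ) (A : Vec s) (z : ℂ) : ℂ :=
  ∑ e ∈ II s D, aeval z (A e) * ∏ k, F k z ^ e k

/-! ### The functions -/

/-- real and imaginary part of `(x + i y) ^ n` -/
def gp (x y : ℚ) : ℕ → ℚ × ℚ
  | 0 => (1, 0)
  | n + 1 => (x * (gp x y n).1 - y * (gp x y n).2, x * (gp x y n).2 + y * (gp x y n).1)

/-- the power series of the real part (`κ = false`) or of the imaginary part (`κ = true`) of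
`log (1 + (x + i y) X)` -/
def lgG (κ : Bool) (x y : ℚ) : PowerSeries ℚ := PowerSeries.mk fun n =>
  (-1) ^ (n + 1) * (if κ then (gp x y n).2 else (gp x y n).1) / n

/-- `(1 + x z0) ^ 2 + (y z0) ^ 2` -/
def qn (x y z0 : ℚ) : ℚ := 1 + 2 * x * z0 + (x ^ 2 + y ^ 2) * z0 ^ 2

/-- the local expansion at `z0`: `b / (1 + b z0)` instead of `b` -/
def lamG (κ : Bool) (x y z0 : ℚ) : PowerSeries ℚ :=
  lgG κ ((x + (x ^ 2 + y ^ 2) * z0) / qn x y z0) (y / qn x y z0)

/-- `(1 + b X) (1 + bbar X)` -/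
def qd (x y : ℚ) : ℚ[X] := 1 + C (2 * x) * X + C (x ^ 2 + y ^ 2) * X ^ 2

/-- the numerator of the derivative -/
def nm (κ : Bool) (x y : ℚ) : ℚ[X] := if κ then C y else C x + C (x ^ 2 + y ^ 2) * X

/-- the system of the functions -/
def SG (κ : Fin s → Bool) (x y : Fin s → ℚ) : Sy s where
  th := ∏ k, qd (x k) (y k)
  pk := fun k => nm (κ k) (x k) (y k) * ∏ j ∈ univ.erase k, qd (x j) (y j)

/-- the functions as functions of a complex variable -/
def FF (κ : Bool) (x y : ℚ) (z : ℂ) : ℂ :=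
  if κ then (Complex.log (1 + ((x : ℂ) + (y : ℂ) * Complex.I) * z) -
    Complex.log (1 + ((x : ℂ) - (y : ℂ) * Complex.I) * z)) / (2 * Complex.I)
  else (Complex.log (1 + ((x : ℂ) + (y : ℂ) * Complex.I) * z) +
    Complex.log (1 + ((x : ℂ) - (y : ℂ) * Complex.I) * z)) / 2

/-- the numbers `x k + i y k` are not real, and two functions of the same kind do not belong to the
same or to conjugate numbers -/
def Dis (κ : Fin s → Bool) (x y : Fin s → ℚ) : Prop := (∀ k, y k ≠ 0) ∧
  ∀ j k, j ≠ k → κ j = κ k → x j = x k → y j ≠ y k ∧ y j ≠ - y k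

/-- the values at `1 / N` -/
def vG (κ : Fin s → Bool) (x y : Fin s → ℤ) (N : ℕ) (k : Fin s) : ℝ :=
  if κ k then (Complex.log (1 + ((x k : ℂ) + (y k : ℂ) * Complex.I) / N)).im
  else (Complex.log (1 + ((x k : ℂ) + (y k : ℂ) * Complex.I) / N)).re

end

end Pool.Agent.H72.GP
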